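import Pool.Agent.Helper76.FT.GoalsB

set_option autoImplicit false

namespace Pool.Agent.Helper40.FT

open Set Filter Topology

/-- sum of increments over disjoint intervals -/
theorem sum_incr (J : ℝ → ℝ) (hJ : Monotone J) {ι : Type} [DecidableEq ι] (A B : ι → ℝ)
    (hAB : ∀ i, A i < B i) (s : Finset ι) :
    ∀ p q : ℝ, p ≤ q → (∀ i ∈ s, p ≤ A i ∧ B i ≤ q) →
      (∀ i ∈ s, ∀ j ∈ s, i ≠ j → ∀ y, ¬ (A i < y ∧ y < B i ∧ A j < y ∧ y < B j)) →
      ∑ i ∈ s, (J (B i) - J (A i)) ≤ J q - J p := by
  induction s using Finset.induction_on_max_value (f := B) with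
  | empty =>
    intro p q hpq _ _
    simpa using hJ hpq
  | insert a s ha hmax ih =>
    intro p q hpq hin hdis
    have hkey : ∀ i ∈ s, B i ≤ A a := by
      intro i hi
      by_contra hlt
      push Not at hlt
      have hne : i ≠ a := fun h => ha (h ▸ hi)
      have h1 : max (A i) (A a) < B i := max_lt (hAB i) hlt
      obtain ⟨y, hy1, hy2⟩ := exists_between h1
      exact hdis i (Finset.mem_insert_of_mem hi) a (Finset.mem_insert_self a s) hne y
        ⟨(le_max_left _ _).trans_lt hy1, hy2, (le_max_right _ _).trans_lt hy1,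
          hy2.trans_le (hmax i hi)⟩
    have hpa : p ≤ A a := (hin a (Finset.mem_insert_self a s)).1
    have hbq : B a ≤ q := (hin a (Finset.mem_insert_self a s)).2
    have h2 := ih p (A a) hpa
      (fun i hi => ⟨(hin i (Finset.mem_insert_of_mem hi)).1, hkey i hi⟩)
      (fun i hi j hj => hdis i (Finset.mem_insert_of_mem hi) j (Finset.mem_insert_of_mem hj))
    rw [Finset.sum_insert ha]
    have h3 := hJ hbq
    linarith

theorem ft_gap : Pool.Agent.Helper76.FT.GGap := by
  intro g M J m e hg hgc hg1 hper hMc hMne hM1 hMg hJ hJ1 hJg hJd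
  -- integer translations
  have hgk : ∀ (k : ℤ) (x : ℝ), g (x + k) = g x + k := by
    have hn : ∀ (n : ℕ) (x : ℝ), g (x + n) = g x + n := by
      intro n
      induction n with
      | zero => intro x; simp
      | succ n ih =>
        intro x
        have : x + ((n + 1 : ℕ) : ℝ) = (x + n) + 1 := by push_cast; ring
        rw [this, hg1, ih]; push_cast; ring
    intro k x
    obtain ⟨n, rfl | rfl⟩ := k.eq_nat_or_neg
    · simpa using hn n x
    · have h := hn n (x + ((-(n:ℤ) : ℤ) : ℝ))
      have h2 : x + ((-(n:ℤ) : ℤ) : ℝ) + n = x := by push_cast; ring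
      rw [h2] at h
      rw [h]; push_cast; ring
  have hgn1 : ∀ (n : ℕ) (x : ℝ), g^[n] (x + 1) = g^[n] x + 1 := by
    intro n
    induction n with
    | zero => intro x; simp
    | succ n ih => intro x; rw [Function.iterate_succ_apply, hg1, ih, Function.iterate_succ_apply]
  have hgm : ∀ n : ℕ, StrictMono (g^[n]) := fun n => hg.iterate n
  have hMk : ∀ (k : ℤ) (x : ℝ), x ∈ M ↔ x + k ∈ M := by
    have hn : ∀ (n : ℕ) (x : ℝ), x ∈ M ↔ x + n ∈ M := by
      intro n
      induction n with
      | zero => intro x; simp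
      | succ n ih =>
        intro x
        have : x + ((n + 1 : ℕ) : ℝ) = (x + n) + 1 := by push_cast; ring
        rw [this, ← hM1, ← ih]
    intro k x
    obtain ⟨n, rfl | rfl⟩ := k.eq_nat_or_neg
    · simpa using hn n x
    · have h := hn n (x + ((-(n:ℤ) : ℤ) : ℝ))
      have h2 : x + ((-(n:ℤ) : ℤ) : ℝ) + n = x := by push_cast; ring
      rw [h2] at h
      exact h.symm
  have hJk : ∀ (k : ℤ) (x : ℝ), J (x + k) = J x + k * m := by
    have hn : ∀ (n : ℕ) (x : ℝ), J (x + n) = J x + n * m := by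
      intro n
      induction n with
      | zero => intro x; simp
      | succ n ih =>
        intro x
        have : x + ((n + 1 : ℕ) : ℝ) = (x + n) + 1 := by push_cast; ring
        rw [this, hJ1, ih]; push_cast; ring
    intro k x
    obtain ⟨n, rfl | rfl⟩ := k.eq_nat_or_neg
    · simpa using hn n x
    · have h := hn n (x + ((-(n:ℤ) : ℤ) : ℝ))
      have h2 : x + ((-(n:ℤ) : ℤ) : ℝ) + n = x := by push_cast; ring
      rw [h2] at h
      rw [h]; push_cast; ring
  -- surjectivity
  have hbot : Tendsto g atBot atBot := by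
    rw [tendsto_atBot]
    intro c
    rw [eventually_atBot]
    refine ⟨((⌊c - g 0⌋ : ℤ) : ℝ), fun x hx => ?_⟩
    have h1 : g x ≤ g (0 + ((⌊c - g 0⌋ : ℤ) : ℝ)) := hg.monotone (by simpa using hx)
    rw [hgk] at h1
    have h2 := Int.floor_le (c - g 0)
    linarith
  have htop : Tendsto g atTop atTop := by
    rw [tendsto_atTop]
    intro c
    rw [eventually_atTop]
    refine ⟨((⌈c - g 0⌉ : ℤ) : ℝ), fun x hx => ?_⟩
    have h1 : g (0 + ((⌈c - g 0⌉ : ℤ) : ℝ)) ≤ g x := hg.monotone (by simpa using hx)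
    rw [hgk] at h1
    have h2 := Int.le_ceil (c - g 0)
    linarith
  have hsurj : Function.Surjective g := hgc.surjective htop hbot
  have hMgn : ∀ (n : ℕ) (x : ℝ), x ∈ M ↔ g^[n] x ∈ M := by
    intro n
    induction n with
    | zero => intro x; simp
    | succ n ih => intro x; rw [Function.iterate_succ_apply, ← ih, ← hMg]
  have hJgn : ∀ (n : ℕ) (x : ℝ), x ∈ M → J (g^[n] x) = J x + n * e := by
    intro n
    induction n with
    | zero => intro x _; simp
    | succ n ih =>
      intro x hx
      rw [Function.iterate_succ_apply, ih (g x) ((hMg x).1 hx), hJg x hx]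
      push_cast; ring
  have hderiv : ∀ x, HasDerivAt J 0 x := by
    intro x
    by_cases hx : x ∈ M
    · exact hJd x hx
    -- the gap around x
    obtain ⟨y₀, hy₀⟩ := hMne
    have hneL : (M ∩ Iic x).Nonempty := by
      refine ⟨y₀ + ((⌊x - y₀⌋ : ℤ) : ℝ), (hMk _ _).1 hy₀, ?_⟩
      have := Int.floor_le (x - y₀)
      simp only [mem_Iic]; linarith
    have hneR : (M ∩ Ici x).Nonempty := by
      refine ⟨y₀ + ((⌈x - y₀⌉ : ℤ) : ℝ), (hMk _ _).1 hy₀, ?_⟩
      have := Int.le_ceil (x - y₀)
      simp only [mem_Ici]; linarith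
    have hbL : BddAbove (M ∩ Iic x) := ⟨x, fun y hy => hy.2⟩
    have hbR : BddBelow (M ∩ Ici x) := ⟨x, fun y hy => hy.2⟩
    set a := sSup (M ∩ Iic x) with ha
    set b := sInf (M ∩ Ici x) with hb
    have haM : a ∈ M ∩ Iic x := (hMc.inter isClosed_Iic).csSup_mem hneL hbL
    have hbM : b ∈ M ∩ Ici x := (hMc.inter isClosed_Ici).csInf_mem hneR hbR
    have hax : a < x := lt_of_le_of_ne haM.2 (fun h => hx (h ▸ haM.1))
    have hxb : x < b := lt_of_le_of_ne hbM.2 (fun h => hx (h ▸ hbM.1))
    have hgap : ∀ y, a < y → y < b → y ∉ M := by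
      intro y hy1 hy2 hyM
      rcases le_total y x with h | h
      · exact absurd (le_csSup hbL ⟨hyM, h⟩) (not_le.2 hy1)
      · exact absurd (csInf_le hbR ⟨hyM, h⟩) (not_le.2 hy2)
    have hab1 : b ≤ a + 1 := by
      by_contra hlt
      push Not at hlt
      exact hgap (a + 1) (by linarith) hlt ((hM1 a).1 haM.1)
    have hab : a < b := hax.trans hxb
    -- iterates of the gap
    have hgapn : ∀ (n : ℕ) (y : ℝ), g^[n] a < y → y < g^[n] b → y ∉ M := by
      intro n y hy1 hy2 hyM
      obtain ⟨z, rfl⟩ := (hsurj.iterate n) y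
      exact hgap z ((hgm n).lt_iff_lt.1 hy1) ((hgm n).lt_iff_lt.1 hy2) ((hMgn n z).2 hyM)
    let kk : ℕ → ℤ := fun n => -⌊g^[n] a⌋
    let A : ℕ → ℝ := fun n => g^[n] a + (kk n : ℝ)
    let B : ℕ → ℝ := fun n => g^[n] b + (kk n : ℝ)
    have hAB : ∀ n, A n < B n := fun n => by
      have := (hgm n) hab
      simp only [A, B]; linarith
    have hAM : ∀ n, A n ∈ M := fun n => (hMk _ _).1 ((hMgn n a).1 haM.1)
    have hBM : ∀ n, B n ∈ M := fun n => (hMk _ _).1 ((hMgn n b).1 hbM.1)
    have hgapA : ∀ (n : ℕ) (y : ℝ), A n < y → y < B n → y ∉ M := by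
      intro n y hy1 hy2 hyM
      have h1 : y + ((-(kk n) : ℤ) : ℝ) ∈ M := (hMk _ _).1 hyM
      refine hgapn n _ ?_ ?_ h1
      · simp only [A] at hy1; push_cast; linarith
      · simp only [B] at hy2; push_cast; linarith
    have hA0 : ∀ n, 0 ≤ A n := fun n => by
      have := Int.floor_le (g^[n] a)
      simp only [A, kk]; push_cast; linarith
    have hB2 : ∀ n, B n ≤ 2 := fun n => by
      have h1 := Int.lt_floor_add_one (g^[n] a)
      have h2 : g^[n] b ≤ g^[n] a + 1 := by
        rw [← hgn1]; exact (hgm n).monotone hab1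
      simp only [B, kk]; push_cast; linarith
    have hdis' : ∀ i j : ℕ, i < j → ∀ y, ¬ (A i < y ∧ y < B i ∧ A j < y ∧ y < B j) := by
      rintro i j hij y ⟨h1, h2, h3, h4⟩
      have heq : A i = A j := by
        rcases lt_trichotomy (A i) (A j) with h | h | h
        · exact absurd (hAM j) (hgapA i _ h (h3.trans h2))
        · exact h
        · exact absurd (hAM i) (hgapA j _ h (h1.trans h4))
      obtain ⟨d, rfl⟩ := Nat.exists_eq_add_of_lt hij
      have h5 : g^[i + d + 1] a = g^[d + 1] (g^[i] a) := by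
        rw [← Function.iterate_add_apply, show d + 1 + i = i + d + 1 by omega]
      simp only [A] at heq
      rw [h5] at heq
      refine hper d (kk i - kk (i + d + 1)) (g^[i] a) ?_
      push_cast; linarith
    have hdis : ∀ i j : ℕ, i ≠ j → ∀ y, ¬ (A i < y ∧ y < B i ∧ A j < y ∧ y < B j) := by
      intro i j hij y h
      rcases lt_or_gt_of_ne hij with h1 | h1
      · exact hdis' i j h1 y h
      · exact hdis' j i h1 y ⟨h.2.2.1, h.2.2.2, h.1, h.2.1⟩
    have hsum : ∀ N : ℕ, (N : ℝ) * (J b - J a) ≤ J 2 - J 0 := by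
      intro N
      have h1 := sum_incr J hJ A B hAB (Finset.range N) 0 2 (by norm_num)
        (fun i _ => ⟨hA0 i, hB2 i⟩) (fun i _ j _ hij => hdis i j hij)
      have h2 : ∑ i ∈ Finset.range N, (J (B i) - J (A i)) = (N : ℝ) * (J b - J a) := by
        rw [Finset.sum_congr rfl (g := fun _ => J b - J a)]
        · rw [Finset.sum_const, Finset.card_range, nsmul_eq_mul]
        · intro i _
          simp only [A, B]
          rw [hJk, hJk, hJgn i b hbM.1, hJgn i a haM.1]
          ring
      rwa [h2] at h1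
    have hJab : J b = J a := by
      have h0 : 0 ≤ J b - J a := sub_nonneg.2 (hJ hab.le)
      by_contra hne
      have hpos : 0 < J b - J a := lt_of_le_of_ne h0 (fun h => hne (by linarith))
      obtain ⟨N, hN⟩ := exists_nat_gt ((J 2 - J 0) / (J b - J a))
      rw [div_lt_iff₀ hpos] at hN
      exact absurd (hsum N) (not_le.2 hN)
    have hev : J =ᶠ[𝓝 x] fun _ => J x := by
      filter_upwards [Ioo_mem_nhds hax hxb] with y hy
      have h1 : J a ≤ J y := hJ hy.1.le
      have h2 : J y ≤ J b := hJ hy.2.le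
      have h3 : J a ≤ J x := hJ hax.le
      have h4 : J x ≤ J b := hJ hxb.le
      linarith
    exact (hasDerivAt_const x (J x)).congr_of_eventuallyEq hev
  have hconst := is_const_of_deriv_eq_zero (f := J) (fun x => (hderiv x).differentiableAt)
    (fun x => (hderiv x).deriv) 0 1
  have h1 := hJ1 0
  rw [zero_add] at h1
  linarith

end Pool.Agent.Helper40.FT
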